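import Pool.Agent.helper36.PT.Spec
import Pool.Agent.helper71.AA.S2
import Pool.Agent.helper25.AA.N3

/-! Row `pt:UBL`: the small primes, an upper bound for the conditioned expectations. -/

set_option autoImplicit false

namespace Pool.Agent.PT

open Finset Pool.Agent.helper71.AA

private theorem UBL_exp {t : ℝ} (ht : 0 < t) : Real.exp (-t) ≤ 1 / t := by
  rw [Real.exp_neg, one_div]
  exact inv_anti₀ ht (by linarith [Real.add_one_le_exp t])

private theorem UBL_sum (Q : Finset ℕ) :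
    ∑ K ∈ Q.powerset, 1 / ph K = ∏ l ∈ Q, (1 + 1 / ((l : ℝ) - 1)) := by
  rw [Finset.prod_one_add]
  refine sum_congr rfl fun K _ => ?_
  unfold ph
  rw [prod_div_distrib, prod_const_one]

private theorem UBL_ph_nonneg {Q K : Finset ℕ} (hQ : ∀ l ∈ Q, 2 ≤ l) (hK : K ⊆ Q) :
    0 ≤ 1 / ph K := by
  unfold ph
  refine one_div_nonneg.2 (prod_nonneg fun l hl => ?_)
  have : (2 : ℝ) ≤ l := by exact_mod_cast hQ l (hK hl)
  linarith

/-- The lower bound of `Gs`. -/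
private theorem UBL_Gs {K₁ : ℝ} {Z : ℕ} {Q : Finset ℕ} {R : ℝ} (hR : 0 < R)
    (h : ∑ H ∈ Q.powerset.filter (fun H => R < pr H), 1 / ph H ≤
      K₁ * R ^ (-(1 / Real.log Z)) * ∏ l ∈ Q, (1 + 1 / ((l : ℝ) - 1)))
    (hP : 0 ≤ ∏ l ∈ Q, (1 + 1 / ((l : ℝ) - 1)))
    (hK : K₁ * R ^ (-(1 / Real.log Z)) ≤ 1 / 2) :
    (∏ l ∈ Q, (1 + 1 / ((l : ℝ) - 1))) / 2 ≤ Gs Q R := by
  have h1 : Gs Q R + ∑ H ∈ Q.powerset.filter (fun H => R < pr H), 1 / ph H =
      ∏ l ∈ Q, (1 + 1 / ((l : ℝ) - 1)) := by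
    rw [← UBL_sum]
    unfold Gs Pool.Agent.helper71.AA.Sub
    have e : Q.powerset.filter (fun H => R < pr H) =
        Q.powerset.filter (fun H => ¬ pr H ≤ R) := by
      refine filter_congr fun H _ => ?_
      rw [not_le]
    rw [e]
    exact sum_filter_add_sum_filter_not _ _ _
  have h2 := mul_le_mul_of_nonneg_right hK hP
  linarith

private theorem UBL_log_sum {C C₁ : ℝ} (hC : 1 ≤ C) (hC₁ : 0 < C₁)
    (hm : ∀ x y : ℝ, 1 ≤ y → y ≤ x →
      |∑ l ∈ (Ioc ⌊y⌋₊ ⌊x⌋₊).filter Nat.Prime, Real.log l / l - Real.log (x / y)| ≤ C₁)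
    {w Z : ℕ} (hw : 2 ≤ w) (hZ : 2 ≤ Z) {Q : Finset ℕ} (hQ : Q ⊆ Qs w Z) :
    ∑ g ∈ Q, 1 / (g : ℝ) * (Real.log g + C) ≤ (1 + 2 * C) * (1 + 2 * C₁) * Real.log Z := by
  have hl2 : (1 : ℝ) / 2 ≤ Real.log 2 := by
    have := Real.log_two_gt_d9
    linarith
  have hlZ : (1 : ℝ) / 2 ≤ Real.log Z := by
    have : Real.log 2 ≤ Real.log Z := Real.log_le_log (by norm_num) (by exact_mod_cast hZ)
    linarith
  have h1 : ∀ g ∈ Q, 1 / (g : ℝ) * (Real.log g + C) ≤ (1 + 2 * C) * (Real.log g / g) := by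
    intro g hg
    have hg2 : 2 ≤ g := by
      have := (mem_filter.1 (hQ hg)).2
      exact this.two_le
    have hg0 : (0 : ℝ) < g := by
      have : 0 < g := by omega
      exact_mod_cast this
    have hlg : (1 : ℝ) / 2 ≤ Real.log g := by
      have : Real.log 2 ≤ Real.log g := Real.log_le_log (by norm_num) (by exact_mod_cast hg2)
      linarith
    have h2 : Real.log g + C ≤ (1 + 2 * C) * Real.log g := by nlinarith
    calc 1 / (g : ℝ) * (Real.log g + C) ≤ 1 / (g : ℝ) * ((1 + 2 * C) * Real.log g) :=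
          mul_le_mul_of_nonneg_left h2 (by positivity)
      _ = (1 + 2 * C) * (Real.log g / g) := by ring
  have h3 : ∑ g ∈ Q, Real.log g / (g : ℝ) ≤
      ∑ l ∈ (Ioc ⌊(1 : ℝ)⌋₊ ⌊(Z : ℝ)⌋₊).filter Nat.Prime, Real.log l / (l : ℝ) := by
    refine sum_le_sum_of_subset_of_nonneg ?_ ?_
    · intro g hg
      obtain ⟨h4, h5⟩ := mem_filter.1 (hQ hg)
      rw [mem_Ioc] at h4
      rw [mem_filter, mem_Ioc, Nat.floor_one, Nat.floor_natCast]
      exact ⟨⟨by omega, h4.2⟩, h5⟩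
    · intro g _ _
      exact div_nonneg (Real.log_natCast_nonneg g) (Nat.cast_nonneg g)
  have h4 := abs_le.1 (hm Z 1 le_rfl (by exact_mod_cast (by omega : 1 ≤ Z)))
  rw [div_one] at h4
  have h5 : ∑ g ∈ Q, Real.log g / (g : ℝ) ≤ (1 + 2 * C₁) * Real.log Z := by
    nlinarith [h4.2]
  calc ∑ g ∈ Q, 1 / (g : ℝ) * (Real.log g + C) ≤ ∑ g ∈ Q, (1 + 2 * C) * (Real.log g / g) :=
        sum_le_sum h1
    _ = (1 + 2 * C) * ∑ g ∈ Q, Real.log g / g := by rw [mul_sum]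
    _ ≤ (1 + 2 * C) * ((1 + 2 * C₁) * Real.log Z) :=
        mul_le_mul_of_nonneg_left h5 (by linarith)
    _ = (1 + 2 * C) * (1 + 2 * C₁) * Real.log Z := by ring

theorem UBL (h1 : RKN_stmt) (h2 : SGL_stmt) : UBL_stmt := by
  obtain ⟨K, hK, hR⟩ := h1
  obtain ⟨C, hC, hS⟩ := h2
  obtain ⟨C₁, hC₁, hm⟩ := mert_log
  intro eps heps
  obtain ⟨ρ, hρ⟩ : ∃ ρ : ℝ, ρ = 0.00001 := ⟨_, rfl⟩
  have hρ0 : 0 < ρ := by rw [hρ]; norm_num
  obtain ⟨M, hM⟩ : ∃ M : ℝ, M = 2 * K * Real.exp 2 * ((1 + 2 * C) * (1 + 2 * C₁)) := ⟨_, rfl⟩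
  have hM0 : 0 < M := by
    rw [hM]
    have := Real.exp_pos 2
    positivity
  refine ⟨min (ρ / 4) (min (ρ / (2 * K)) (ρ * eps / (2 * M))), ?_, ?_⟩
  · have : 0 < K := by linarith
    exact lt_min (by positivity) (lt_min (by positivity) (by positivity))
  intro η hη hη0
  have hK0 : 0 < K := by linarith
  have e1 : η ≤ ρ / 4 := hη0.trans (min_le_left _ _)
  have e2 : η ≤ ρ / (2 * K) := hη0.trans ((min_le_right _ _).trans (min_le_left _ _))
  have e3 : η ≤ ρ * eps / (2 * M) := hη0.trans ((min_le_right _ _).trans (min_le_right _ _))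
  refine ⟨(2 : ℝ) ^ (1 / η), ?_⟩
  intro X hX w hw p
  have hX1 : 1 ≤ X := le_trans (Real.one_le_rpow (by norm_num) (by positivity)) hX
  have hX0 : 0 < X := by linarith
  have hXη : (2 : ℝ) ≤ X ^ η := by
    calc (2 : ℝ) = ((2 : ℝ) ^ (1 / η)) ^ η := by
          rw [← Real.rpow_mul (by norm_num), one_div, inv_mul_cancel₀ hη.ne', Real.rpow_one]
      _ ≤ X ^ η := Real.rpow_le_rpow (by positivity) hX hη.le
  obtain ⟨Z, hZdef⟩ : ∃ Z : ℕ, Z = ⌊X ^ η⌋₊ := ⟨_, rfl⟩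
  have hZ2 : 2 ≤ Z := by
    rw [hZdef]
    exact Nat.le_floor (by exact_mod_cast hXη)
  have hZle : (Z : ℝ) ≤ X ^ η := by
    rw [hZdef]
    exact Nat.floor_le (by positivity)
  have hZ0 : (2 : ℝ) ≤ Z := by exact_mod_cast hZ2
  obtain ⟨Q, hQdef⟩ : ∃ Q : Finset ℕ, Q = (Qm w X η).erase p := ⟨_, rfl⟩
  have hQs : Q ⊆ Qs w Z := by
    rw [hQdef, hZdef]
    exact erase_subset _ _
  have hQ2 : ∀ l ∈ Q, 2 ≤ l := fun l hl => ((mem_filter.1 (hQs hl)).2).two_le
  obtain ⟨R, hRdef⟩ : ∃ R : ℝ, R = Rr X := ⟨_, rfl⟩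
  have hRX : R = X ^ ρ := by
    rw [hRdef, hρ]
    rfl
  have hR0 : 0 < R := by rw [hRX]; positivity
  have hZR : (Z : ℝ) ^ 2 ≤ R := by
    calc (Z : ℝ) ^ 2 ≤ (X ^ η) ^ 2 := pow_le_pow_left₀ (by linarith) hZle 2
      _ = X ^ (2 * η) := by
          rw [← Real.rpow_natCast, ← Real.rpow_mul hX0.le]
          congr 1
          push_cast
          ring
      _ ≤ X ^ ρ := Real.rpow_le_rpow_of_exponent_le hX1 (by linarith)
      _ = R := hRX.symm
  have hlogR : Real.log R = ρ * Real.log X := by rw [hRX, Real.log_rpow hX0]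
  have hlogZ : Real.log Z ≤ η * Real.log X := by
    rw [← Real.log_rpow hX0]
    exact Real.log_le_log (by linarith) hZle
  have hlogZ0 : 0 < Real.log Z := Real.log_pos (by linarith)
  have hlogX0 : 0 < Real.log X := by
    by_contra hcon
    have : η * Real.log X ≤ 0 := mul_nonpos_of_nonneg_of_nonpos hη.le (not_lt.1 hcon)
    linarith
  have hlogR0 : 0 < Real.log R := by rw [hlogR]; positivity
  -- `log R / log Z ≥ ρ / η`
  have hratio : ρ / η ≤ Real.log R / Real.log Z := by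
    rw [div_le_div_iff₀ hη hlogZ0, hlogR]
    nlinarith
  have hratio2 : Real.log Z / Real.log R ≤ η / ρ := by
    rw [div_le_div_iff₀ hlogR0 hρ0, hlogR]
    nlinarith
  have hexp : Real.exp (-(ρ / η)) ≤ η / ρ := by
    have := UBL_exp (div_pos hρ0 hη)
    rw [one_div_div] at this
    exact this
  have hRpow : R ^ (-(1 / Real.log Z)) ≤ Real.exp (-(ρ / η)) := by
    rw [Real.rpow_def_of_pos hR0, Real.exp_le_exp]
    have : Real.log R * -(1 / Real.log Z) = -(Real.log R / Real.log Z) := by ring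
    rw [this]
    linarith
  have hy0 : 0 < R / (Z : ℝ) ^ 2 := by positivity
  have hypow : (R / (Z : ℝ) ^ 2) ^ (-(1 / Real.log Z)) ≤ Real.exp 2 * Real.exp (-(ρ / η)) := by
    rw [Real.rpow_def_of_pos hy0, ← Real.exp_add, Real.exp_le_exp,
      Real.log_div hR0.ne' (by positivity), Real.log_pow]
    have : (Real.log R - ((2 : ℕ) : ℝ) * Real.log Z) * -(1 / Real.log Z) =
        2 - Real.log R / Real.log Z := by
      push_cast
      field_simp
      ring
    rw [this]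
    linarith
  obtain ⟨P, hP⟩ : ∃ P : ℝ, P = ∏ l ∈ Q, (1 + 1 / ((l : ℝ) - 1)) := ⟨_, rfl⟩
  have hP0 : 0 ≤ P := by
    rw [hP]
    refine prod_nonneg fun l hl => ?_
    have : (2 : ℝ) ≤ l := by exact_mod_cast hQ2 l hl
    have : 0 ≤ 1 / ((l : ℝ) - 1) := one_div_nonneg.2 (by linarith)
    linarith
  have hGs : P / 2 ≤ Gs Q R := by
    have h3 := hR w Z hw hZ2 Q hQs R hR0
    rw [hP]
    refine UBL_Gs hR0 h3 (by rw [← hP]; exact hP0) ?_
    calc K * R ^ (-(1 / Real.log Z)) ≤ K * (η / ρ) :=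
          mul_le_mul_of_nonneg_left (hRpow.trans hexp) hK0.le
      _ ≤ 1 / 2 := by
          rw [le_div_iff₀ (by positivity)] at e2
          rw [← mul_div_assoc, div_le_div_iff₀ hρ0 (by norm_num)]
          linarith
  have hT := hR w Z hw hZ2 Q hQs (R / (Z : ℝ) ^ 2) hy0
  rw [← hP] at hT
  have hT2 : ∑ H ∈ Q.powerset.filter (fun H => R / (Z : ℝ) ^ 2 < pr H), 1 / ph H ≤
      K * (Real.exp 2 * Real.exp (-(ρ / η))) * P :=
    hT.trans (mul_le_mul_of_nonneg_right (mul_le_mul_of_nonneg_left hypow hK0.le) hP0)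
  have hg : ∀ g ∈ Q, Ex Q (fun A => if g ∈ A then Sg Q R A ^ 2 else 0) ≤
      1 / (g : ℝ) * (Real.log g + C) *
        (2 / Real.log R * (K * (Real.exp 2 * Real.exp (-(ρ / η))) * P)) := by
    intro g hg
    rw [Ex_Sg_one Q hQ2 g hg R]
    have h3 := hS w Z hw hZ2 Q hQs R hZR g hg
    have hg2 : (2 : ℝ) ≤ g := by exact_mod_cast hQ2 g hg
    have hlg : 0 ≤ Real.log g := Real.log_nonneg (by linarith)
    have h4 : 2 / Real.log R * (Real.log g + C) *
        ∑ H ∈ Q.powerset.filter (fun H => R / (Z : ℝ) ^ 2 < pr H), 1 / ph H ≤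
        2 / Real.log R * (Real.log g + C) * (K * (Real.exp 2 * Real.exp (-(ρ / η))) * P) :=
      mul_le_mul_of_nonneg_left hT2 (by positivity)
    have h5 := mul_le_mul_of_nonneg_left (h3.trans h4) (by positivity : (0 : ℝ) ≤ 1 / (g : ℝ))
    refine h5.trans (le_of_eq ?_)
    ring
  rw [← hQdef, ← hRdef]
  have hsum := sum_le_sum hg
  rw [← sum_mul] at hsum
  have hlog := UBL_log_sum hC hC₁ hm hw hZ2 hQs
  have hfac : 0 ≤ 2 / Real.log R * (K * (Real.exp 2 * Real.exp (-(ρ / η))) * P) := by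
    have := Real.exp_pos 2
    have := Real.exp_pos (-(ρ / η))
    positivity
  have h6 := hsum.trans (mul_le_mul_of_nonneg_right hlog hfac)
  have h7 : (1 + 2 * C) * (1 + 2 * C₁) * Real.log Z *
      (2 / Real.log R * (K * (Real.exp 2 * Real.exp (-(ρ / η))) * P)) =
      M * (Real.log Z / Real.log R) * Real.exp (-(ρ / η)) * P := by
    rw [hM]
    ring
  rw [h7] at h6
  have h8 : M * (Real.log Z / Real.log R) * Real.exp (-(ρ / η)) ≤ eps / 2 := by
    have h9 : Real.log Z / Real.log R ≤ 1 := hratio2.trans (by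
      rw [div_le_one hρ0]
      linarith)
    have h10 : 0 ≤ Real.log Z / Real.log R := by positivity
    calc M * (Real.log Z / Real.log R) * Real.exp (-(ρ / η))
        ≤ M * 1 * (η / ρ) :=
          mul_le_mul (mul_le_mul_of_nonneg_left h9 hM0.le) hexp (Real.exp_pos _).le
            (by positivity)
      _ ≤ eps / 2 := by
          rw [le_div_iff₀ (by positivity)] at e3
          rw [mul_one, ← mul_div_assoc, div_le_div_iff₀ hρ0 (by norm_num)]
          linarith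
  have h11 := mul_le_mul_of_nonneg_right h8 hP0
  have h12 := mul_le_mul_of_nonneg_left hGs heps.le
  linarith

end Pool.Agent.PT
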