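import Pool.Agent.helper95.PT.WHp

set_option linter.all false
set_option autoImplicit false

/-!
# Rows LE and LE2 of the plan for Pate's inequality with three copies (MP_2dd521_co)

The leg inequality from the certificate.
-/

namespace Pool.Agent.helper52.PTLE

open MvPolynomial Pool.Agent.helper59.PT Pool.Agent.helper95.PTWH
open scoped ComplexConjugate ComplexOrder

section

variable {ι : Type} [Fintype ι] [DecidableEq ι]

theorem Lam_C_mul (L : MvPolynomial (Sl × ι) ℂ →ₗ[ℂ] ℂ) (e : ι → ℂ)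
    (F : MvPolynomial ι ℂ) (z : ℝ) (A : Sy) : Lam L e F (C z * A) = z * Lam L e F A := by
  rw [← smul_eq_C_mul, map_smul, smul_eq_mul]

theorem DD_eq (e : ι → ℂ) (q : Fin 3) (Q : MvPolynomial (Sl × ι) ℂ) : DD e q Q = DQ e q Q := rfl

/-- the derivative of one product in the leg inequality -/
theorem der_word {c : Fin 3 → ℝ} {L : MvPolynomial (Sl × ι) ℂ →ₗ[ℂ] ℂ}
    (e : ι → ℂ) (he : ∑ a, e a * conj (e a) = 1) (F : MvPolynomial ι ℂ)
    (hW : ∀ (w w' : List (Fin 3)) (n : Sl →₀ ℕ),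
      (L ((w.map (xi e)).prod * (w'.map (eta e)).prod *
        GM e F (fun p => n (Sum.inl p)) (fun q => n (Sum.inr q)))).re =
      Lam L e F (monomial n 1 * WH c w w')) (p q : Fin 3) :
    (L (DD e q (xi e (p + 1) * xi e (p + 2) * (eta e 0 * eta e 1 * eta e 2) * GM e F 0 0))).re =
      Lam L e F (X (Sum.inr q) * WH c [p + 1, p + 2] [0, 1, 2]) +
        Lam L e F (WH c [p + 1, p + 2] ([0, 1, 2].eraseIdx (q : ℕ))) := by
  have h0 : (GM e F 0 0 : MvPolynomial (Sl × ι) ℂ) =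
      GM e F (fun p => (0 : Sl →₀ ℕ) (Sum.inl p)) (fun q => (0 : Sl →₀ ℕ) (Sum.inr q)) := rfl
  have h1 : (monomial (0 : Sl →₀ ℕ) (1 : ℝ) : Sy) = 1 := by
    rw [monomial_zero', map_one]
  have hA := hW [p + 1, p + 2] [0, 1, 2] (up 0 (Sum.inr q))
  have hB := hW [p + 1, p + 2] ([0, 1, 2].eraseIdx (q : ℕ)) 0
  rw [monomial_up, h1, one_mul] at hA
  rw [h1, one_mul] at hB
  rw [← hA, ← hB, ← Complex.add_re, ← map_add]
  congr 2
  rw [DD_eq, h0]
  have e1 : xi e (p + 1) * xi e (p + 2) = (([p + 1, p + 2] : List (Fin 3)).map (xi e)).prod := by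
    simp
  have e2 : eta e 0 * eta e 1 * eta e 2 = (([0, 1, 2] : List (Fin 3)).map (eta e)).prod := by
    simp [mul_assoc]
  rw [e1, e2, mul_assoc, DQ_mul, DQ_xis, zero_mul, add_zero, DQ_mul, DQ_GMn, DQ_etas e he]
  rw [mul_add]
  refine congrArg₂ (· + ·) ?_ ?_
  · ring
  · rw [show (∑ k : Fin ([0, 1, 2] : List (Fin 3)).length,
        (if q = ([0, 1, 2] : List (Fin 3)).get k then (1 : MvPolynomial (Sl × ι) ℂ) else 0) *
          ((([0, 1, 2] : List (Fin 3)).eraseIdx k).map (eta e)).prod) =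
        ((([0, 1, 2] : List (Fin 3)).eraseIdx (q : ℕ)).map (eta e)).prod from ?_]
    · ring
    · show (∑ k : Fin 3, _) = _
      rw [Fin.sum_univ_three]
      fin_cases q <;> simp

end

/-- **pt:LE2** -/
theorem rowLE2 : Pool.Agent.helper59.PT.RowLE2 := by
  intro hWH hLR hTW c v hA hC ι _ _ L hL e F he
  have hR : IsRing c (Lam L e F) :=
    ⟨(hLR ι c L hL e F).1, (hLR ι c L hL e F).2, hTW ι c hA L hL e F he⟩
  have h0 := hC (Lam L e F) hR
  have hW := hWH ι c L hL e F he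
  have h1 : (monomial (0 : Sl →₀ ℕ) (1 : ℝ) : Sy) = 1 := by
    rw [monomial_zero', map_one]
  have hP2 : (L (xi e 0 * xi e 1 * xi e 2 * (eta e 0 * eta e 1 * eta e 2) * GM e F 0 0)).re =
      Lam L e F (P2 c) := by
    have h := hW [0, 1, 2] [0, 1, 2] 0
    rw [h1, one_mul] at h
    unfold P2
    rw [← h]
    have e1 : xi e 0 * xi e 1 * xi e 2 = (([0, 1, 2] : List (Fin 3)).map (xi e)).prod := by
      simp [mul_assoc]
    have e2 : eta e 0 * eta e 1 * eta e 2 = (([0, 1, 2] : List (Fin 3)).map (eta e)).prod := by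
      simp [mul_assoc]
    rw [e1, e2]
    rfl
  have hPV : ∑ p : Fin 3, ∑ q : Fin 3, v (q - p) *
      (L (DD e q (xi e (p + 1) * xi e (p + 2) * (eta e 0 * eta e 1 * eta e 2) *
        GM e F 0 0))).re = Lam L e F (PV c v) := by
    unfold PV
    rw [map_sum]
    refine Finset.sum_congr rfl fun p _ => ?_
    rw [map_add, Finset.sum_mul, map_sum, map_sum, ← Finset.sum_add_distrib]
    refine Finset.sum_congr rfl fun q _ => ?_
    rw [der_word e he F hW p q, mul_assoc, Lam_C_mul, Lam_C_mul, mul_add]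
  rw [hP2, hPV]
  unfold HPV at h0
  rw [map_sub, Lam_C_mul, Lam_C_mul] at h0
  linarith

end Pool.Agent.helper52.PTLE
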